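import Pool.Agent.H41.CL.Defs
import Pool.Graph.R_seed8.W991.RR.SW
import Pool.Graph.R_seed8.W912.RR.Cnt

set_option autoImplicit false

/-! Few short cycles in random cubic graphs: the statement `S_CYC` of `Pool.Agent.H41.CL.Defs`. -/

namespace Pool.Agent.H71.CL

open Finset Pool.Agent.H41.CL Pool.Agent.W341.RR

open Classical in
/-- Pairs of a set `S` of at most `K` vertices and a set of `|S|` pairs of elements of `S`. -/
noncomputable def PS (n K : ℕ) : Finset (Finset (Fin n) × Finset (Sym2 (Fin n))) :=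
  univ.filter (fun p => 1 ≤ p.1.card ∧ p.1.card ≤ K ∧ p.2 ⊆ p.1.sym2 ∧ p.2.card = p.1.card)

open Classical in
/-- The members of `PS n K` whose pairs are edges of `G`. -/
noncomputable def II (n K : ℕ) (G : SimpleGraph (Fin n)) :
    Finset (Finset (Fin n) × Finset (Sym2 (Fin n))) :=
  (PS n K).filter (fun p => ∀ e ∈ p.2, e ∈ G.edgeSet)

lemma good_of_few {n K L : ℕ} {G : SimpleGraph (Fin n)} (h : K * (II n K G).card ≤ L) :
    ∃ F : Finset (Sym2 (Fin n)), F.card ≤ L ∧ Acyc G F K := by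
  classical
  refine ⟨(II n K G).biUnion (fun p => p.2), ?_, ?_⟩
  · refine (card_biUnion_le.trans ?_).trans h
    rw [mul_comm]
    refine sum_le_card_nsmul _ _ _ (fun p hp => ?_)
    have hp' := (mem_filter.1 (mem_filter.1 hp).1).2
    omega
  · intro H C hHG hF hC hCK
    by_contra hcon
    push Not at hcon
    have hfin : {e | e ∈ H.edgeSet ∧ ∀ x ∈ e, x ∈ C}.Finite := Set.toFinite _
    have hcard : C.card ≤ hfin.toFinset.card := by
      rw [← Set.ncard_eq_toFinset_card _ hfin]; omega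
    obtain ⟨E, hE, hEc⟩ := Finset.exists_subset_card_eq hcard
    have hE' : ∀ e ∈ E, e ∈ H.edgeSet ∧ ∀ x ∈ e, x ∈ C := by
      intro e he
      have := hE he
      rwa [Set.Finite.mem_toFinset] at this
    have hpos : 1 ≤ C.card := hC.card_pos
    have hmem : (C, E) ∈ II n K G := by
      refine mem_filter.2 ⟨mem_filter.2 ⟨mem_univ _, hpos, hCK, ?_, hEc⟩, ?_⟩
      · intro e he
        rw [Finset.mem_sym2_iff]
        exact (hE' e he).2
      · intro e he
        exact SimpleGraph.edgeSet_mono hHG (hE' e he).1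
    have hne : E.Nonempty := by rw [← card_pos]; omega
    obtain ⟨e, he⟩ := hne
    exact hF e (mem_biUnion.2 ⟨(C, E), hmem, he⟩) (hE' e he).1

lemma sum_PS {n K : ℕ} (A : ℝ) (hA : 0 ≤ A) (hn : 0 < n)
    (g : Finset (Sym2 (Fin n)) → ℝ)
    (hg : ∀ E : Finset (Sym2 (Fin n)), E.card ≤ K → (n : ℝ) ^ E.card * g E ≤ 6 ^ E.card * A) :
    ∑ p ∈ PS n K, g p.2 ≤ (∑ j ∈ range (K + 1), (2 : ℝ) ^ ((j + 1) ^ 2) * 6 ^ j) * A := by
  classical
  have hnpos : (0 : ℝ) < n := by exact_mod_cast hn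
  have hmap : ∀ p ∈ PS n K, p.1.card ∈ range (K + 1) := by
    intro p hp
    have := (mem_filter.1 hp).2
    exact mem_range.2 (by omega)
  rw [← sum_fiberwise_of_maps_to hmap, sum_mul]
  refine sum_le_sum (fun j hj => ?_)
  have hj' : j ≤ K := by have := mem_range.1 hj; omega
  have h1 : ∀ p ∈ (PS n K).filter (fun p => p.1.card = j), g p.2 ≤ 6 ^ j * A / (n : ℝ) ^ j := by
    intro p hp
    obtain ⟨hp1, hp2⟩ := mem_filter.1 hp
    have hp3 := (mem_filter.1 hp1).2
    have hc : p.2.card = j := by omega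
    have := hg p.2 (by omega)
    rw [hc] at this
    rw [le_div_iff₀ (by positivity), mul_comm]
    exact this
  refine (sum_le_card_nsmul _ _ _ h1).trans ?_
  rw [nsmul_eq_mul]
  have h2 : (((PS n K).filter (fun p => p.1.card = j)).card : ℝ) ≤
      (n : ℝ) ^ j * 2 ^ ((j + 1) ^ 2) := by
    have h3 : (PS n K).filter (fun p => p.1.card = j) ⊆
        (powersetCard j (univ : Finset (Fin n))).biUnion
          (fun S => (S.sym2.powerset).image (fun E => (S, E))) := by
      intro p hp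
      obtain ⟨hp1, hp2⟩ := mem_filter.1 hp
      have hp3 := (mem_filter.1 hp1).2
      rw [mem_biUnion]
      refine ⟨p.1, mem_powersetCard.2 ⟨subset_univ _, hp2⟩, ?_⟩
      rw [mem_image]
      exact ⟨p.2, mem_powerset.2 hp3.2.2.1, rfl⟩
    have h4 : ((PS n K).filter (fun p => p.1.card = j)).card ≤ n ^ j * 2 ^ ((j + 1) ^ 2) := by
      refine (card_le_card h3).trans (card_biUnion_le.trans ?_)
      have h5 : ∀ S ∈ powersetCard j (univ : Finset (Fin n)),
          ((S.sym2.powerset).image (fun E => (S, E))).card ≤ 2 ^ ((j + 1) ^ 2) := by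
        intro S hS
        have hSc := (mem_powersetCard.1 hS).2
        refine card_image_le.trans ?_
        rw [card_powerset, Finset.card_sym2, hSc]
        refine Nat.pow_le_pow_right (by norm_num) ?_
        rw [Nat.choose_two_right]
        calc (j + 1) * (j + 1 - 1) / 2 ≤ (j + 1) * (j + 1 - 1) := Nat.div_le_self _ _
          _ ≤ (j + 1) * (j + 1) := Nat.mul_le_mul_left _ (Nat.sub_le _ _)
          _ = (j + 1) ^ 2 := by ring
      refine (sum_le_card_nsmul _ _ _ h5).trans ?_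
      rw [smul_eq_mul, card_powersetCard, card_univ, Fintype.card_fin]
      exact Nat.mul_le_mul_right _ (Nat.choose_le_pow n j)
    exact_mod_cast h4
  calc (((PS n K).filter (fun p => p.1.card = j)).card : ℝ) * (6 ^ j * A / (n : ℝ) ^ j)
      ≤ ((n : ℝ) ^ j * 2 ^ ((j + 1) ^ 2)) * (6 ^ j * A / (n : ℝ) ^ j) :=
        mul_le_mul_of_nonneg_right h2 (by positivity)
    _ = (2 : ℝ) ^ ((j + 1) ^ 2) * 6 ^ j * A := by
        field_simp

theorem t_CYC : S_CYC := by
  classical
  intro K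
  obtain ⟨n0, hn0⟩ := Pool.Agent.W991.RR.t_SW 3 (K + 1)
  set Q : ℝ := ∑ j ∈ range (K + 1), (2 : ℝ) ^ ((j + 1) ^ 2) * 6 ^ j with hQ
  have hQ0 : 0 ≤ Q := sum_nonneg fun j _ => by positivity
  refine ⟨K * Q + 1, by positivity, n0 + 1, fun n hn L hL => ?_⟩
  have hpw := Pool.Agent.W912.RR.pw (n := n) (Δ := 3) (s := K) (hn0 n (by omega))
  have hCub : {G : SimpleGraph (Fin n) | Cubic G} = reg n 3 ∅ := by
    ext G
    simp [Pool.Agent.H41.CL.Cubic, reg]
  rw [hCub]
  set A : ℝ := ((reg n 3 ∅).ncard : ℝ) with hA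
  have hA0 : 0 ≤ A := by positivity
  set cub : Finset (SimpleGraph (Fin n)) := univ.filter (fun G => Cubic G) with hcub
  set bad : Finset (SimpleGraph (Fin n)) := cub.filter (fun G => L < K * (II n K G).card)
    with hbad
  have hsub : {G : SimpleGraph (Fin n) | Cubic G ∧
      ¬ ∃ F : Finset (Sym2 (Fin n)), F.card ≤ L ∧ Acyc G F K} ⊆ (bad : Set _) := by
    rintro G ⟨h1, h2⟩
    rw [mem_coe, hbad, mem_filter, hcub, mem_filter]
    refine ⟨⟨mem_univ _, h1⟩, ?_⟩
    by_contra hcon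
    exact h2 (good_of_few (not_lt.1 hcon))
  have h1 := Set.ncard_le_ncard hsub (Finset.finite_toSet _)
  rw [Set.ncard_coe_finset] at h1
  -- Markov
  have h2 : (L : ℝ) * (bad.card : ℝ) ≤ ∑ G ∈ cub, (K : ℝ) * ((II n K G).card : ℝ) := by
    calc (L : ℝ) * (bad.card : ℝ) = ∑ G ∈ bad, (L : ℝ) := by
          rw [sum_const, nsmul_eq_mul, mul_comm]
      _ ≤ ∑ G ∈ bad, (K : ℝ) * ((II n K G).card : ℝ) := by
          refine sum_le_sum (fun G hG => ?_)
          have := (mem_filter.1 hG).2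
          exact_mod_cast this.le
      _ ≤ _ := sum_le_sum_of_subset_of_nonneg (filter_subset _ _) (fun G _ _ => by positivity)
  have h3 : ∑ G ∈ cub, ((II n K G).card : ℝ) = ∑ p ∈ PS n K, ((reg n 3 p.2).ncard : ℝ) := by
    have h4 : ∀ G ∈ cub, ((II n K G).card : ℝ) =
        ∑ p ∈ PS n K, if (∀ e ∈ p.2, e ∈ G.edgeSet) then (1 : ℝ) else 0 := by
      intro G _
      rw [II, card_filter]
      push_cast
      rfl
    rw [sum_congr rfl h4, sum_comm]
    refine sum_congr rfl (fun p _ => ?_)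
    rw [← sum_filter, sum_const, nsmul_eq_mul, mul_one]
    congr 1
    rw [← Set.ncard_coe_finset]
    congr 1
    ext G
    simp [hcub, Pool.Agent.H41.CL.Cubic, reg]
  have h5 : ∑ p ∈ PS n K, ((reg n 3 p.2).ncard : ℝ) ≤ Q * A := by
    refine sum_PS A hA0 (by omega) (fun E => ((reg n 3 E).ncard : ℝ)) (fun E hE => ?_)
    have := hpw E (by omega)
    norm_num at this ⊢
    exact this
  have hL' : (0 : ℝ) < L := by exact_mod_cast hL
  have h6 : (L : ℝ) * (bad.card : ℝ) ≤ K * (Q * A) := by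
    refine h2.trans ?_
    rw [← mul_sum, h3]
    exact mul_le_mul_of_nonneg_left h5 (by positivity)
  have h7 : (bad.card : ℝ) ≤ K * (Q * A) / L := by
    rw [le_div_iff₀ hL', mul_comm]
    exact h6
  calc _ ≤ (bad.card : ℝ) := by exact_mod_cast h1
    _ ≤ K * (Q * A) / L := h7
    _ ≤ (K * Q + 1) / L * A := by
        rw [div_mul_eq_mul_div]
        refine div_le_div_of_nonneg_right ?_ hL'.le
        nlinarith

end Pool.Agent.H71.CL
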